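import Mathlib
import Pool.Agent.Results.MP_7c0615_lc.Intermediate

/-!
# MP_49e1e0_lc: a Boolean predicate whose exponent, if it exists, is not an integer

For the explicit `12`-ary predicate of `Pool.Agent.Results.MP_7c0615_lc.Intermediate` every real
`β` with `NRD(P, n) = Θ(n ^ β)` lies in `[3/2, 2)`.
-/

set_option autoImplicit false

namespace Pool.Agent.Results.MP_49e1e0_lc.NonIntegralWindow

open Filter Topology
open Pool.Agent.Results.MP_7c0615_lc.Intermediate (NRD P12 lower_NRD upper_NRD)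

theorem low (e : Fin 12 ≃ Fin 3 × Bool × Bool) (n : ℕ) (hn : 12 ≤ n) :
    (1 / 48 : ℝ) ^ (3 / 2 : ℝ) * (n : ℝ) ^ (3 / 2 : ℝ) ≤ NRD (P12 e) n := by
  set m := Nat.sqrt (n / 12) with hm
  have h1 : m ^ 2 ≤ n / 12 := Nat.sqrt_le' _
  have h2 : n / 12 < (m + 1) ^ 2 := Nat.lt_succ_sqrt' _
  have h3 : 12 * m ^ 2 ≤ n := by omega
  have h4 : m ^ 3 ≤ NRD (P12 e) n := lower_NRD e m n h3
  have hm1 : 1 ≤ m := by
    rw [hm, Nat.le_sqrt']
    omega
  have h5 : n ≤ 48 * m ^ 2 := by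
    have : n < 12 * (m + 1) ^ 2 := by omega
    nlinarith
  have h6 : (1 / 48 : ℝ) * n ≤ (m : ℝ) ^ 2 := by
    have : (n : ℝ) ≤ 48 * (m : ℝ) ^ 2 := by exact_mod_cast h5
    linarith
  calc (1 / 48 : ℝ) ^ (3 / 2 : ℝ) * (n : ℝ) ^ (3 / 2 : ℝ)
      = ((1 / 48 : ℝ) * n) ^ (3 / 2 : ℝ) := by
        rw [Real.mul_rpow (by positivity) (by positivity)]
    _ ≤ ((m : ℝ) ^ 2) ^ (3 / 2 : ℝ) :=
        Real.rpow_le_rpow (by positivity) h6 (by norm_num)
    _ = (m : ℝ) ^ 3 := by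
        rw [← Real.rpow_natCast, ← Real.rpow_natCast, ← Real.rpow_mul (by positivity)]
        norm_num
    _ ≤ NRD (P12 e) n := by exact_mod_cast h4

theorem lim (e : Fin 12 ≃ Fin 3 × Bool × Bool) :
    Tendsto (fun n : ℕ => (NRD (P12 e) n : ℝ) / (n : ℝ) ^ 2) atTop (𝓝 0) := by
  rw [Metric.tendsto_atTop]
  intro ε hε
  obtain ⟨N, hN⟩ := upper_NRD e (ε / 2) (by positivity)
  obtain ⟨M, hM⟩ := exists_nat_gt (24 / ε)
  refine ⟨max (max N M) 1, fun n hn => ?_⟩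
  have hn1 : N ≤ n := le_trans (le_trans (le_max_left _ _) (le_max_left _ _)) hn
  have hn2 : M ≤ n := le_trans (le_trans (le_max_right _ _) (le_max_left _ _)) hn
  have hn3 : 1 ≤ n := le_trans (le_max_right _ _) hn
  have hn3' : (1 : ℝ) ≤ n := by exact_mod_cast hn3
  have h1 := hN n hn1
  rw [Real.dist_eq, sub_zero, abs_of_nonneg (by positivity), div_lt_iff₀ (by positivity)]
  have h2 : 24 / ε < n := lt_of_lt_of_le hM (by exact_mod_cast hn2)
  rw [div_lt_iff₀ hε] at h2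
  nlinarith

/-- There is a Boolean predicate `P` of arity at least `4` with
`c n ^ (3/2) ≤ NRD(P, n) = o(n²)`; hence every real `β` with `NRD(P, n) = Θ(n ^ β)` satisfies
`3/2 ≤ β < 2`. -/
theorem result : ∃ (r : ℕ) (P : Set (Fin r → Bool)), 4 ≤ r ∧
    (∃ c : ℝ, 0 < c ∧ ∀ᶠ n : ℕ in atTop, c * (n : ℝ) ^ (3 / 2 : ℝ) ≤ NRD P n) ∧
    Tendsto (fun n : ℕ => (NRD P n : ℝ) / (n : ℝ) ^ 2) atTop (𝓝 0) ∧
    ∀ β : ℝ, (∃ c C : ℝ, 0 < c ∧ 0 < C ∧ ∀ᶠ n : ℕ in atTop,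
      c * (n : ℝ) ^ β ≤ NRD P n ∧ (NRD P n : ℝ) ≤ C * (n : ℝ) ^ β) → 3 / 2 ≤ β ∧ β < 2 := by
  have e : Fin 12 ≃ Fin 3 × Bool × Bool :=
    (Fintype.equivFinOfCardEq (by simp)).symm
  refine ⟨12, P12 e, by norm_num, ⟨(1 / 48 : ℝ) ^ (3 / 2 : ℝ), by positivity, ?_⟩, lim e, ?_⟩
  · filter_upwards [eventually_ge_atTop 12] with n hn using low e n hn
  · rintro β ⟨c, C, hc, hC, h⟩
    constructor
    · by_contra hβ
      push Not at hβ
      have h1 : Tendsto (fun n : ℕ => (n : ℝ) ^ (3 / 2 - β)) atTop atTop :=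
        (tendsto_rpow_atTop (by linarith)).comp tendsto_natCast_atTop_atTop
      have h2 := (h1.eventually_gt_atTop (C / (1 / 48 : ℝ) ^ (3 / 2 : ℝ))).and
        (h.and (eventually_ge_atTop 12))
      obtain ⟨n, hn1, ⟨hn2, hn3⟩, hn4⟩ := h2.exists
      have hn0 : (0 : ℝ) < n := by
        have : 0 < n := by omega
        exact_mod_cast this
      have h3 := (low e n hn4).trans hn3
      rw [div_lt_iff₀ (by positivity)] at hn1
      have h4 : (n : ℝ) ^ (3 / 2 : ℝ) = (n : ℝ) ^ (3 / 2 - β) * (n : ℝ) ^ β := by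
        rw [← Real.rpow_add hn0]
        congr 1
        ring
      rw [h4] at h3
      have h5 : 0 < (n : ℝ) ^ β := Real.rpow_pos_of_pos hn0 _
      have h6 : (1 / 48 : ℝ) ^ (3 / 2 : ℝ) * (n : ℝ) ^ (3 / 2 - β) ≤ C := by
        by_contra h7
        push Not at h7
        nlinarith [mul_lt_mul_of_pos_right h7 h5]
      linarith
    · by_contra hβ
      push Not at hβ
      have h1 := (lim e).eventually_lt_const hc
      obtain ⟨n, hn1, ⟨hn2, hn3⟩, hn4⟩ := (h1.and (h.and (eventually_ge_atTop 1))).exists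
      have hn0 : (1 : ℝ) ≤ n := by exact_mod_cast hn4
      have h2 : (n : ℝ) ^ (2 : ℝ) ≤ (n : ℝ) ^ β := Real.rpow_le_rpow_of_exponent_le hn0 hβ
      rw [div_lt_iff₀ (by positivity)] at hn1
      have h3 : (n : ℝ) ^ (2 : ℝ) = (n : ℝ) ^ 2 := by norm_num
      rw [h3] at h2
      have := mul_le_mul_of_nonneg_left h2 hc.le
      linarith

end Pool.Agent.Results.MP_49e1e0_lc.NonIntegralWindow
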